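import Pool.Agent.H22.GEN.Front

/-!
# Cells in steep fronts

`frn_cell`: finitely many thresholds which are Lipschitz functions of the radius. In every steep
front at the scale `r` there is an interval of radii of length at least `δ r` on which all the
thresholds at the window `w₀` are affine up to `ε Y`, and each of them falls by at least `C Y`
between the two windows at all these radii, or by at most `ε Y` at all these radii.
-/

set_option autoImplicit false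

namespace Pool.STR

open MeasureTheory Set Filter Topology Pool.LEV

/-- Lipschitz functions on the line: limits along an ultrafilter, uniform on intervals. -/
theorem ulip1 (U : Ultrafilter ℕ) (b : ℕ → ℝ → ℝ) (hb : ∀ n, LipschitzWith 1 (b n)) (R : ℝ)
    (hb0 : ∀ n, |b n 0| ≤ R) :
    ∃ f : ℝ → ℝ, LipschitzWith 1 f ∧ (∀ p, Tendsto (fun n => b n p) U (𝓝 (f p))) ∧
      ∀ (X η : ℝ), 0 < η → ∀ᶠ n in (U : Filter ℕ), ∀ p', |p'| ≤ X → |b n p' - f p'| ≤ η := by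
  have h1 : ∀ p : ℝ, ∃ y : ℝ, Tendsto (fun n => b n p) U (𝓝 y) := by
    intro p
    refine ulim U _ (|p| + R) fun n => ?_
    have h2 := (hb n).dist_le_mul p 0
    rw [Real.dist_eq, Real.dist_eq, sub_zero, NNReal.coe_one, one_mul] at h2
    have h3 := abs_add_le (b n p - b n 0) (b n 0)
    rw [sub_add_cancel] at h3
    linarith [hb0 n]
  choose f hf using h1
  have hfl : LipschitzWith 1 f := by
    refine LipschitzWith.of_dist_le_mul fun p p' => ?_
    have h2 : Tendsto (fun n => dist (b n p) (b n p')) U (𝓝 (dist (f p) (f p'))) :=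
      (hf p).dist (hf p')
    exact le_of_tendsto h2 (Eventually.of_forall fun n => (hb n).dist_le_mul p p')
  refine ⟨f, hfl, hf, fun X η hη => ?_⟩
  have hc : IsCompact (Metric.closedBall (0 : ℝ) X) := isCompact_closedBall 0 X
  obtain ⟨t, -, ht1, ht2⟩ := hc.finite_cover_balls (by positivity : 0 < η / 3)
  have h3 : ∀ᶠ n in (U : Filter ℕ), ∀ z ∈ t, |b n z - f z| < η / 3 := by
    rw [Filter.eventually_all_finite ht1]
    intro z _
    have := Metric.tendsto_nhds.1 (hf z) (η / 3) (by positivity)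
    filter_upwards [this] with n hn
    rwa [Real.dist_eq] at hn
  filter_upwards [h3] with n hn p' hp'
  obtain ⟨z, hz, hz'⟩ := mem_iUnion₂.1 (ht2 (Metric.mem_closedBall.2 (by
    rw [Real.dist_eq, sub_zero]
    exact hp')))
  rw [Metric.mem_ball] at hz'
  have e1 := (hb n).dist_le_mul p' z
  have e2 := hfl.dist_le_mul p' z
  rw [Real.dist_eq, NNReal.coe_one, one_mul] at e1 e2
  have e3 := hn z hz
  have e4 : b n p' - f p' = (b n p' - b n z) + (b n z - f z) - (f p' - f z) := by ring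
  rw [e4]
  refine (abs_sub _ _).trans ?_
  have e5 := abs_add_le (b n p' - b n z) (b n z - f z)
  linarith

/-- **Common affine interval**: finitely many functions `u i` and nonnegative functions `v i`. -/
theorem common {ι : Type*} [Finite ι] {ε C : ℝ} (hε : 0 < ε) (hC : 0 < C) :
    ∃ δ : ℝ, 0 < δ ∧ ∀ u v : ι → ℝ → ℝ, (∀ i, LipschitzWith 1 (u i)) → (∀ i, u i 0 = 0) →
      (∀ i, LipschitzWith 1 (v i)) → (∀ i x, 0 ≤ v i x) → (∀ i x, v i x ≤ 1) →
      ∃ (p X : ℝ) (s : ι → ℝ), δ ≤ X ∧ X ≤ p ∧ p + X ≤ 1 ∧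
        (∀ i x, |x - p| ≤ X → |u i x - u i p - s i * (x - p)| ≤ ε * X) ∧
        ∀ i, (∀ x, |x - p| ≤ X → C * X ≤ v i x) ∨ ∀ x, |x - p| ≤ X → v i x ≤ ε * X := by
  classical
  by_contra hcon
  push Not at hcon
  have h1 : ∀ n : ℕ, ∃ u v : ι → ℝ → ℝ, (∀ i, LipschitzWith 1 (u i)) ∧ (∀ i, u i 0 = 0) ∧
      (∀ i, LipschitzWith 1 (v i)) ∧ (∀ i x, 0 ≤ v i x) ∧ (∀ i x, v i x ≤ 1) ∧
      ∀ (p X : ℝ) (s : ι → ℝ), 1 / ((n : ℝ) + 1) ≤ X → X ≤ p → p + X ≤ 1 →
        (∀ i x, |x - p| ≤ X → |u i x - u i p - s i * (x - p)| ≤ ε * X) →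
        ∃ i, (∃ x, |x - p| ≤ X ∧ v i x < C * X) ∧ ∃ x, |x - p| ≤ X ∧ ε * X < v i x := by
    intro n
    obtain ⟨u, v, k1, k2, k3, k4, k5, k6⟩ := hcon (1 / ((n : ℝ) + 1)) (by positivity)
    exact ⟨u, v, k1, k2, k3, k4, k5, k6⟩
  choose u v k1 k2 k3 k4 k5 k6 using h1
  obtain ⟨U, hU⟩ : ∃ U : Ultrafilter ℕ, U = hyperfilter ℕ := ⟨_, rfl⟩
  have hUt : (U : Filter ℕ) ≤ atTop := by
    rw [hU, ← Nat.cofinite_eq_atTop]
    exact hyperfilter_le_cofinite
  have hf : ∀ i, ∃ f : ℝ → ℝ, LipschitzWith 1 f ∧ (∀ p, Tendsto (fun n => u n i p) U (𝓝 (f p))) ∧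
      ∀ (X η : ℝ), 0 < η → ∀ᶠ n in (U : Filter ℕ), ∀ p', |p'| ≤ X → |u n i p' - f p'| ≤ η :=
    fun i => ulip1 U (fun n => u n i) (fun n => k1 n i) 0 fun n => by rw [k2, abs_zero]
  have hg : ∀ i, ∃ f : ℝ → ℝ, LipschitzWith 1 f ∧ (∀ p, Tendsto (fun n => v n i p) U (𝓝 (f p))) ∧
      ∀ (X η : ℝ), 0 < η → ∀ᶠ n in (U : Filter ℕ), ∀ p', |p'| ≤ X → |v n i p' - f p'| ≤ η :=
    fun i => ulip1 U (fun n => v n i) (fun n => k3 n i) 1 fun n => by
      rw [abs_of_nonneg (k4 n i 0)]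
      exact k5 n i 0
  choose f f1 f2 f3 using hf
  choose g g1 g2 g3 using hg
  have g0 : ∀ i x, 0 ≤ g i x := fun i x =>
    ge_of_tendsto (g2 i x) (Eventually.of_forall fun n => k4 n i x)
  -- a common point
  have hp : ∃ p : ℝ, 0 < p ∧ p < 1 ∧ ∀ i, DifferentiableAt ℝ (f i) p ∧
      DifferentiableAt ℝ (g i) p := by
    have a1 : ∀ᵐ p : ℝ, ∀ i, DifferentiableAt ℝ (f i) p ∧ DifferentiableAt ℝ (g i) p := by
      have : Countable ι := Finite.to_countable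
      rw [ae_all_iff]
      intro i
      filter_upwards [(f1 i).ae_differentiableAt_real, (g1 i).ae_differentiableAt_real]
        with p a b using ⟨a, b⟩
    by_contra hc
    push Not at hc
    have a2 : volume (Ioo (0 : ℝ) 1) = 0 := by
      refine measure_mono_null ?_ a1
      intro p hp hp'
      have hp'' : ∀ i, DifferentiableAt ℝ (f i) p ∧ DifferentiableAt ℝ (g i) p := hp'
      obtain ⟨i, hi⟩ := hc p hp.1 hp.2
      exact hi (hp'' i).1 (hp'' i).2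
    rw [Real.volume_Ioo, sub_zero, ENNReal.ofReal_one] at a2
    exact one_ne_zero a2
  obtain ⟨p, p0, p1, hd⟩ := hp
  -- the affine approximation
  have aff1 : ∀ {φ : ℝ → ℝ}, DifferentiableAt ℝ φ p → ∃ d : ℝ, 0 < d ∧ ∀ X : ℝ, 0 < X → X ≤ d →
      ∀ x, |x - p| ≤ X → |φ x - φ p - deriv φ p * (x - p)| ≤ ε / 8 * X := by
    intro φ hφ
    have b1 := hφ.hasDerivAt.isLittleO.def (show 0 < ε / 8 by positivity)
    obtain ⟨d, hd, b2⟩ := Metric.eventually_nhds_iff.1 b1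
    refine ⟨d / 2, by positivity, fun X hX hXd x hx => ?_⟩
    have b3 := b2 (y := x) (by rw [Real.dist_eq]; linarith)
    rw [Real.norm_eq_abs, Real.norm_eq_abs, smul_eq_mul] at b3
    rw [mul_comm (deriv φ p)]
    exact b3.trans (mul_le_mul_of_nonneg_left hx (by positivity))
  have hdd : ∀ i, ∃ d : ℝ, 0 < d ∧ ∀ X : ℝ, 0 < X → X ≤ d →
      (∀ x, |x - p| ≤ X → |f i x - f i p - deriv (f i) p * (x - p)| ≤ ε / 8 * X) ∧
      ((∀ x, |x - p| ≤ X → 2 * C * X ≤ g i x) ∨ ∀ x, |x - p| ≤ X → g i x ≤ ε / 8 * X) := by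
    intro i
    obtain ⟨d1, hd1, c1⟩ := aff1 (hd i).1
    rcases eq_or_lt_of_le (g0 i p) with h0 | h0
    · obtain ⟨d2, hd2, c2⟩ := aff1 (hd i).2
      refine ⟨min d1 d2, lt_min hd1 hd2, fun X hX hXd => ⟨c1 X hX (hXd.trans (min_le_left _ _)),
        Or.inr fun x hx => ?_⟩⟩
      have hmin : IsLocalMin (g i) p := by
        refine Eventually.of_forall fun y => ?_
        rw [← h0]
        exact g0 i y
      have c3 := c2 X hX (hXd.trans (min_le_right _ _)) x hx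
      rw [hmin.deriv_eq_zero, ← h0, zero_mul, sub_zero, sub_zero] at c3
      exact (le_abs_self _).trans c3
    · refine ⟨min d1 (g i p / (2 * C + 1)), lt_min hd1 (by positivity), fun X hX hXd =>
        ⟨c1 X hX (hXd.trans (min_le_left _ _)), Or.inl fun x hx => ?_⟩⟩
      have c3 := hXd.trans (min_le_right _ _)
      rw [le_div_iff₀ (by positivity)] at c3
      have c4 := (g1 i).dist_le_mul x p
      rw [Real.dist_eq, Real.dist_eq, NNReal.coe_one, one_mul] at c4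
      have c5 := (abs_le.1 c4).1
      linarith
  choose d hd0 hd1 using hdd
  obtain ⟨X, hX0, hXp, hXp', hXd⟩ : ∃ X : ℝ, 0 < X ∧ X ≤ p ∧ p + X ≤ 1 ∧ ∀ i, X ≤ d i := by
    rcases isEmpty_or_nonempty ι with hι | hι
    · refine ⟨min p (1 - p), lt_min p0 (by linarith), min_le_left _ _, ?_, fun i => hι.elim i⟩
      have := min_le_right p (1 - p)
      linarith
    · obtain ⟨i₀, hi₀⟩ := Finite.exists_min d
      refine ⟨min (d i₀) (min p (1 - p)), lt_min (hd0 i₀) (lt_min p0 (by linarith)),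
        (min_le_right _ _).trans (min_le_left _ _), ?_, fun i =>
        (min_le_left _ _).trans (hi₀ i)⟩
      have := (min_le_right (d i₀) (min p (1 - p))).trans (min_le_right _ _)
      linarith
  obtain ⟨κ, hκ⟩ : ∃ κ, κ = min (ε * X / 8) (C * X) := ⟨_, rfl⟩
  have hκ0 : 0 < κ := by
    rw [hκ]
    exact lt_min (by positivity) (by positivity)
  have hκ1 : κ ≤ ε * X / 8 := by rw [hκ]; exact min_le_left _ _
  have hκ2 : κ ≤ C * X := by rw [hκ]; exact min_le_right _ _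
  have e1 : ∀ᶠ n in (U : Filter ℕ), ∀ i, ∀ p', |p'| ≤ 2 → |u n i p' - f i p'| ≤ κ :=
    Filter.eventually_all.2 fun i => f3 i 2 κ hκ0
  have e2 : ∀ᶠ n in (U : Filter ℕ), ∀ i, ∀ p', |p'| ≤ 2 → |v n i p' - g i p'| ≤ κ :=
    Filter.eventually_all.2 fun i => g3 i 2 κ hκ0
  have e3 : ∀ᶠ n : ℕ in (U : Filter ℕ), 1 / ((n : ℝ) + 1) ≤ X := by
    have : Tendsto (fun n : ℕ => 1 / ((n : ℝ) + 1)) atTop (𝓝 0) :=
      tendsto_one_div_add_atTop_nhds_zero_nat
    have h6 := hUt ((tendsto_order.1 this).2 X hX0)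
    filter_upwards [h6] with n hn using hn.le
  obtain ⟨n, e4, e5, e6⟩ := (e1.and (e2.and e3)).exists
  have hx2 : ∀ x, |x - p| ≤ X → |x| ≤ 2 := by
    intro x hx
    rw [abs_le] at hx ⊢
    constructor <;> linarith
  obtain ⟨i, ⟨x, hx, hx'⟩, y, hy, hy'⟩ := k6 n p X (fun i => deriv (f i) p) e6 hXp hXp' (by
    intro i x hx
    have c1 := (hd1 i X hX0 (hXd i)).1 x hx
    have c2 := e4 i x (hx2 x hx)
    have c3 := e4 i p (hx2 p (by rw [sub_self, abs_zero]; exact hX0.le))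
    have c4 : u n i x - u n i p - deriv (f i) p * (x - p) = (u n i x - f i x) -
        (u n i p - f i p) + (f i x - f i p - deriv (f i) p * (x - p)) := by ring
    rw [c4]
    have t1 := abs_add_le ((u n i x - f i x) - (u n i p - f i p))
      (f i x - f i p - deriv (f i) p * (x - p))
    have t2 := abs_sub (u n i x - f i x) (u n i p - f i p)
    have t3 : 0 < ε * X := by positivity
    linarith)
  rcases (hd1 i X hX0 (hXd i)).2 with h | h
  · have c1 := h x hx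
    have c2 := (abs_le.1 (e5 i x (hx2 x hx))).1
    linarith
  · have c1 := h y hy
    have c2 := (abs_le.1 (e5 i y (hx2 y hy))).2
    have t3 : 0 < ε * X := by positivity
    linarith

/-- **Cell in a front**: radii `a` with `|a - a₀| ≤ Y`, windows `w₀ < w₁`, all thresholds `L i`,
the set `G` of the falling ones, and the threshold `L j` of the row. -/
structure FCell {ι : Type*} (L : ι → ℝ → ℝ → ℝ) (j : ι) (D ε C Q r w₀ w₁ a₀ Y : ℝ) (s : ι → ℝ)
    (G : Set ι) : Prop where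
  pos : 0 < w₀
  lt : w₀ < w₁
  left : w₁ ≤ a₀ - Y
  right : a₀ + Y ≤ w₀ + r
  right1 : a₀ + Y ≤ 1
  thin : w₁ - w₀ ≤ ε * Y
  near₀ : Lv (L j) (Q, 0) - ε * Y ≤ w₀
  near₁ : w₁ ≤ Lv (L j) (Q, 0) + ε * Y
  s0 : ∀ i, 0 ≤ s i
  s1 : ∀ i, s i ≤ D
  aff : ∀ i a, |a - a₀| ≤ Y → |L i a w₀ - L i a₀ w₀ - s i * (a - a₀)| ≤ ε * Y
  fall : ∀ i ∈ G, ∀ a, |a - a₀| ≤ Y → C * Y ≤ L i a w₁ - L i a w₀
  stay : ∀ i ∉ G, ∀ a, |a - a₀| ≤ Y → L i a w₁ - L i a w₀ ≤ ε * Y
  mem : j ∈ G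
  lo : ∀ a, |a - a₀| ≤ Y → Q - 2 * r ≤ L j a w₀
  mid : ∀ a, |a - a₀| ≤ Y → L j a w₀ ≤ Q - r / 4
  hi : ∀ a, |a - a₀| ≤ Y → Q + r ≤ L j a w₁

/-- A slope of a function which is increasing and Lipschitz, from the affine approximation. -/
theorem slope_clamp {φ : ℝ → ℝ} {a₀ Y s D e : ℝ} (hY : 0 < Y) (hD : 0 ≤ D)
    (hm : ∀ a a', |a - a₀| ≤ Y → |a' - a₀| ≤ Y → a ≤ a' → φ a ≤ φ a')
    (hl : ∀ a a', |a - a₀| ≤ Y → |a' - a₀| ≤ Y → a ≤ a' → φ a' ≤ φ a + D * (a' - a))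
    (h : ∀ a, |a - a₀| ≤ Y → |φ a - φ a₀ - s * (a - a₀)| ≤ e * Y) :
    ∃ s', 0 ≤ s' ∧ s' ≤ D ∧ ∀ a, |a - a₀| ≤ Y → |φ a - φ a₀ - s' * (a - a₀)| ≤ 2 * (e * Y) := by
  have h0 : |a₀ - a₀| ≤ Y := by rw [sub_self, abs_zero]; exact hY.le
  have hY' : |a₀ + Y - a₀| ≤ Y := by rw [add_sub_cancel_left, abs_of_pos hY]
  have h1 := h _ hY'
  have h2 := hm _ _ h0 hY' (by linarith)
  have h3 := hl _ _ h0 hY' (by linarith)
  rw [add_sub_cancel_left] at h1 h3
  have h4 := abs_le.1 h1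
  refine ⟨max 0 (min D s), le_max_left _ _, max_le hD (min_le_left _ _), fun a ha => ?_⟩
  have h5 := h a ha
  have key : |max 0 (min D s) - s| * Y ≤ e * Y := by
    rcases le_total s 0 with hs | hs
    · have e1 : max 0 (min D s) = 0 := by
        rw [max_eq_left]
        exact (min_le_right _ _).trans hs
      rw [e1, zero_sub, abs_neg, abs_of_nonpos hs]
      linarith [h4.2, h4.1]
    · rcases le_total s D with hs' | hs'
      · rw [min_eq_right hs', max_eq_right hs, sub_self, abs_zero, zero_mul]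
        exact (abs_nonneg _).trans h1
      · rw [min_eq_left hs', max_eq_right hD, abs_of_nonpos (by linarith)]
        linarith [h4.2, h4.1]
  have e2 : φ a - φ a₀ - max 0 (min D s) * (a - a₀) = (φ a - φ a₀ - s * (a - a₀)) -
      (max 0 (min D s) - s) * (a - a₀) := by ring
  rw [e2]
  refine (abs_sub _ _).trans ?_
  rw [abs_mul]
  have e3 : |max 0 (min D s) - s| * |a - a₀| ≤ |max 0 (min D s) - s| * Y :=
    mul_le_mul_of_nonneg_left ha (abs_nonneg _)
  linarith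

/-- **Fronts contain cells.** -/
theorem frn_cell {ι : Type*} [Finite ι] {D ε C : ℝ} (hD : 1 ≤ D) (hε : 0 < ε) (hC : 0 < C) :
    ∃ δ ε' : ℝ, 0 < δ ∧ 0 < ε' ∧ ∀ (L : ι → ℝ → ℝ → ℝ) (j : ι), (∀ i, Law (L i)) →
      (∀ i, LipR (L i) D) → ∀ Q r w₀ w₁ : ℝ, 0 < r → Frn (L j) D ε' Q r w₀ w₁ →
      ∃ (a₀ Y : ℝ) (s : ι → ℝ) (G : Set ι), δ * r ≤ Y ∧ FCell L j D ε C Q r w₀ w₁ a₀ Y s G := by
  classical
  obtain ⟨c, hc⟩ : ∃ c, c = 1 / (8 * D) := ⟨_, rfl⟩
  have hc0 : 0 < c := by rw [hc]; positivity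
  have hcD : c * D = 1 / 8 := by rw [hc]; field_simp
  have hc1 : c ≤ 1 / 8 := by nlinarith
  obtain ⟨ε₁, hε₁⟩ : ∃ x, x = min (ε * c / 4) (1 / 2) := ⟨_, rfl⟩
  have hε₁0 : 0 < ε₁ := by rw [hε₁]; exact lt_min (by positivity) (by norm_num)
  have hε₁1 : ε₁ ≤ ε * c / 4 := by rw [hε₁]; exact min_le_left _ _
  have hε₁2 : ε₁ ≤ 1 / 2 := by rw [hε₁]; exact min_le_right _ _
  obtain ⟨δ, hδ, key⟩ := common (ι := ι) hε₁0 (show 0 < C * c by positivity)
  obtain ⟨ε', hε'⟩ : ∃ x, x = min (ε * (c / 2 * δ)) (c / 4) := ⟨_, rfl⟩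
  have hε'0 : 0 < ε' := by rw [hε']; exact lt_min (by positivity) (by positivity)
  have hε'1 : ε' ≤ ε * (c / 2 * δ) := by rw [hε']; exact min_le_left _ _
  have hε'2 : ε' ≤ c / 4 := by rw [hε']; exact min_le_right _ _
  refine ⟨c / 2 * δ, ε', by positivity, hε'0, fun L j hL hl Q r w₀ w₁ hr hF => ?_⟩
  obtain ⟨A, hA⟩ : ∃ A : ℝ → ℝ, A = fun x => w₀ + c / 2 * r * (1 + cl x) := ⟨_, rfl⟩
  have cr0 : 0 < c / 2 * r := by positivity
  have hw01 : w₁ - w₀ ≤ c / 4 * r := hF.thin.trans (mul_le_mul_of_nonneg_right hε'2 hr.le)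
  have hA0 : ∀ x, w₁ ≤ A x := by
    intro x
    rw [hA]
    show w₁ ≤ w₀ + c / 2 * r * (1 + cl x)
    have := mul_nonneg cr0.le (cl_nonneg x)
    nlinarith
  have hA1 : ∀ x, A x ≤ w₀ + c * r := by
    intro x
    rw [hA]
    show w₀ + c / 2 * r * (1 + cl x) ≤ _
    have := mul_le_mul_of_nonneg_left (cl_le_one x) cr0.le
    nlinarith
  have hAr : ∀ x, A x ≤ w₀ + r := fun x => (hA1 x).trans (by nlinarith)
  have hA2 : ∀ x, A x ≤ 1 := fun x => by
    have h1 := hAr x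
    have h2 := hF.le1
    have h3 := hF.lt
    linarith
  have hAm : ∀ x y, x ≤ y → A x ≤ A y := by
    intro x y hxy
    rw [hA]
    show w₀ + c / 2 * r * (1 + cl x) ≤ w₀ + c / 2 * r * (1 + cl y)
    have := mul_le_mul_of_nonneg_left (cl_mono hxy) cr0.le
    linarith
  have hAl : ∀ x y, x ≤ y → A y - A x ≤ c / 2 * r * (y - x) := by
    intro x y hxy
    have h1 := cl_lip y x
    rw [abs_of_nonneg (sub_nonneg.2 (cl_mono hxy)), abs_of_nonneg (sub_nonneg.2 hxy)] at h1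
    have h2 := mul_le_mul_of_nonneg_left h1 cr0.le
    rw [hA]
    show w₀ + c / 2 * r * (1 + cl y) - (w₀ + c / 2 * r * (1 + cl x)) ≤ _
    linarith
  have hw₁ : 0 < w₁ := hF.pos.trans hF.lt
  -- increments
  have inc : ∀ i w, (w = w₀ ∨ w = w₁) → ∀ a a', w₁ ≤ a → a ≤ a' → a' ≤ 1 →
      0 ≤ L i a' w - L i a w ∧ L i a' w - L i a w ≤ D * (a' - a) := by
    intro i w hw a a' h1 h2 h3
    have hw0 : 0 < w := by
      rcases hw with rfl | rfl
      · exact hF.pos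
      · exact hw₁
    have hwa : w ≤ a := by
      rcases hw with rfl | rfl
      · exact hF.lt.le.trans h1
      · exact h1
    have h4 := (hL i).mono_a a a' w hw0.le hwa h2 h3
    have h5 := hl i a a' w hw0 hwa h2 h3
    constructor <;> linarith
  obtain ⟨u, hu⟩ : ∃ u : ι → ℝ → ℝ, u = fun i x => (L i (A x) w₀ - L i (A 0) w₀) / r := ⟨_, rfl⟩
  obtain ⟨v, hv⟩ : ∃ v : ι → ℝ → ℝ, v = fun i x => min 1 ((L i (A x) w₁ - L i (A x) w₀) / r) :=
    ⟨_, rfl⟩
  have lip_of : ∀ φ : ℝ → ℝ, (∀ x y, x ≤ y → |φ y - φ x| ≤ y - x) → LipschitzWith 1 φ := by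
    intro φ hφ
    refine LipschitzWith.of_dist_le_mul fun x y => ?_
    rw [NNReal.coe_one, one_mul, Real.dist_eq, Real.dist_eq]
    rcases le_total x y with h | h
    · rw [abs_sub_comm, abs_sub_comm x y, abs_of_nonneg (sub_nonneg.2 h)]
      exact hφ x y h
    · rw [abs_of_nonneg (sub_nonneg.2 h)]
      exact hφ y x h
  have hDc : ∀ x y, x ≤ y → D * (A y - A x) ≤ r * (y - x) / 16 := by
    intro x y hxy
    have h1 := mul_le_mul_of_nonneg_left (hAl x y hxy) (by linarith : (0 : ℝ) ≤ D)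
    have h2 : D * (c / 2 * r * (y - x)) = c * D * (r * (y - x)) / 2 := by ring
    rw [h2, hcD] at h1
    linarith
  have u1 : ∀ i, LipschitzWith 1 (u i) := by
    intro i
    refine lip_of _ fun x y hxy => ?_
    rw [hu]
    show |(L i (A y) w₀ - L i (A 0) w₀) / r - (L i (A x) w₀ - L i (A 0) w₀) / r| ≤ y - x
    have h1 := inc i w₀ (Or.inl rfl) (A x) (A y) (hA0 x) (hAm x y hxy) (hA2 y)
    have h2 := hDc x y hxy
    have e1 : (L i (A y) w₀ - L i (A 0) w₀) / r - (L i (A x) w₀ - L i (A 0) w₀) / r =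
        (L i (A y) w₀ - L i (A x) w₀) / r := by ring
    rw [e1, abs_of_nonneg (div_nonneg h1.1 hr.le), div_le_iff₀ hr]
    nlinarith [mul_nonneg hr.le (sub_nonneg.2 hxy)]
  have v1 : ∀ i, LipschitzWith 1 (v i) := by
    intro i
    refine lip_of _ fun x y hxy => ?_
    rw [hv]
    show |min 1 ((L i (A y) w₁ - L i (A y) w₀) / r) - min 1 ((L i (A x) w₁ - L i (A x) w₀) / r)|
      ≤ y - x
    have h1 := inc i w₀ (Or.inl rfl) (A x) (A y) (hA0 x) (hAm x y hxy) (hA2 y)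
    have h3 := inc i w₁ (Or.inr rfl) (A x) (A y) (hA0 x) (hAm x y hxy) (hA2 y)
    have h2 := hDc x y hxy
    have h4 := abs_min_sub_min_le_max (1 : ℝ) ((L i (A y) w₁ - L i (A y) w₀) / r) 1
      ((L i (A x) w₁ - L i (A x) w₀) / r)
    rw [sub_self, abs_zero, max_eq_right (abs_nonneg _)] at h4
    refine h4.trans ?_
    have e1 : (L i (A y) w₁ - L i (A y) w₀) / r - (L i (A x) w₁ - L i (A x) w₀) / r =
        ((L i (A y) w₁ - L i (A x) w₁) - (L i (A y) w₀ - L i (A x) w₀)) / r := by ring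
    rw [e1, abs_div, abs_of_pos hr, div_le_iff₀ hr]
    have h5 : 0 ≤ r * (y - x) := mul_nonneg hr.le (sub_nonneg.2 hxy)
    rw [abs_le]
    constructor <;> nlinarith
  have v0 : ∀ i x, 0 ≤ v i x := by
    intro i x
    rw [hv]
    refine le_min zero_le_one (div_nonneg ?_ hr.le)
    have := (hL i).mono_w (A x) w₀ w₁ hF.pos.le hF.lt.le (hA0 x) (hA2 x)
    linarith
  obtain ⟨p, X, s, hX1, hX2, hX3, ha, hvv⟩ := key u v u1 (fun i => by
    rw [hu]
    show (L i (A 0) w₀ - L i (A 0) w₀) / r = 0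
    rw [sub_self, zero_div]) v1 v0 (fun i x => by rw [hv]; exact min_le_left _ _)
  have hX0 : 0 < X := hδ.trans_le hX1
  have hXone : X ≤ 1 := by linarith
  obtain ⟨Y, hY⟩ : ∃ Y, Y = c / 2 * r * X := ⟨_, rfl⟩
  have hY0 : 0 < Y := by rw [hY]; positivity
  obtain ⟨a₀, ha₀⟩ : ∃ a, a = w₀ + c / 2 * r * (1 + p) := ⟨_, rfl⟩
  -- the parameter of a radius
  have par : ∀ a, |a - a₀| ≤ Y → ∃ x, |x - p| ≤ X ∧ A x = a ∧ a - a₀ = c / 2 * r * (x - p) := by
    intro a haY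
    refine ⟨p + (a - a₀) / (c / 2 * r), ?_, ?_, ?_⟩
    · rw [add_sub_cancel_left, abs_div, abs_of_pos cr0, div_le_iff₀ cr0]
      rw [hY] at haY
      linarith
    · rw [hY] at haY
      have h1 : |(a - a₀) / (c / 2 * r)| ≤ X := by
        rw [abs_div, abs_of_pos cr0, div_le_iff₀ cr0]
        linarith
      rw [abs_le] at h1
      rw [hA]
      show w₀ + c / 2 * r * (1 + cl (p + (a - a₀) / (c / 2 * r))) = a
      rw [cl_of_mem (by linarith) (by linarith), ha₀]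
      field_simp
      ring
    · rw [add_sub_cancel_left]
      field_simp
  have hAp : A p = a₀ := by
    rw [hA, ha₀]
    show w₀ + c / 2 * r * (1 + cl p) = _
    rw [cl_of_mem (by linarith) (by linarith)]
  -- radii of the cell
  have rad : ∀ a, |a - a₀| ≤ Y → w₁ ≤ a ∧ a ≤ w₀ + c * r ∧ a ≤ w₀ + r ∧ a ≤ 1 := by
    intro a haY
    obtain ⟨x, -, hx, -⟩ := par a haY
    rw [← hx]
    exact ⟨hA0 x, hA1 x, hAr x, hA2 x⟩
  have hcY : ∀ e, e ≤ ε * c / 4 → r * (e * X) ≤ ε / 2 * Y := by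
    intro e he
    rw [hY]
    have : e * (r * X) ≤ ε * c / 4 * (r * X) := mul_le_mul_of_nonneg_right he (by positivity)
    nlinarith
  have haff : ∀ i, ∃ s', 0 ≤ s' ∧ s' ≤ D ∧ ∀ a, |a - a₀| ≤ Y →
      |L i a w₀ - L i a₀ w₀ - s' * (a - a₀)| ≤ 2 * (ε / 2 * Y) := by
    intro i
    refine slope_clamp (φ := fun a => L i a w₀) (s := s i / (c / 2)) hY0 (by linarith) ?_ ?_ ?_
    · intro a a' h1 h2 h3
      have := inc i w₀ (Or.inl rfl) a a' (rad a h1).1 h3 (rad a' h2).2.2.2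
      show L i a w₀ ≤ L i a' w₀
      linarith
    · intro a a' h1 h2 h3
      have := inc i w₀ (Or.inl rfl) a a' (rad a h1).1 h3 (rad a' h2).2.2.2
      show L i a' w₀ ≤ L i a w₀ + D * (a' - a)
      linarith
    · intro a haY
      obtain ⟨x, hx1, hx2, hx3⟩ := par a haY
      have h1 := ha i x hx1
      rw [hu] at h1
      have e1 : (L i (A x) w₀ - L i (A 0) w₀) / r - (L i (A p) w₀ - L i (A 0) w₀) / r -
          s i * (x - p) = (L i a w₀ - L i a₀ w₀ - s i / (c / 2) * (a - a₀)) / r := by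
        rw [hx2, hAp, hx3]
        field_simp
        ring
      have h2 : |(L i a w₀ - L i a₀ w₀ - s i / (c / 2) * (a - a₀)) / r| ≤ ε₁ * X := by
        rw [← e1]
        exact h1
      rw [abs_div, abs_of_pos hr, div_le_iff₀ hr] at h2
      refine h2.trans ?_
      rw [mul_comm]
      exact hcY _ hε₁1
  choose s' s'0 s'1 s'2 using haff
  obtain ⟨G, hG⟩ : ∃ G : Set ι, G = {i | ∀ x, |x - p| ≤ X → C * c * X ≤ v i x} := ⟨_, rfl⟩
  have hstay : ∀ i ∉ G, ∀ a, |a - a₀| ≤ Y → L i a w₁ - L i a w₀ ≤ ε / 2 * Y := by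
    intro i hi a haY
    obtain ⟨x, hx1, hx2, hx3⟩ := par a haY
    have h1 : v i x ≤ ε₁ * X := by
      rcases hvv i with h | h
      · exact absurd (by rw [hG]; exact h) hi
      · exact h x hx1
    rw [hv] at h1
    have h2 : ε₁ * X < 1 := by nlinarith
    have h3 : (L i (A x) w₁ - L i (A x) w₀) / r ≤ ε₁ * X := by
      rcases min_le_iff.1 h1 with h | h
      · linarith
      · exact h
    rw [div_le_iff₀ hr, hx2, mul_comm] at h3
    exact h3.trans (hcY _ hε₁1)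
  have h8 : D * (c * r) = r / 8 := by
    have : D * (c * r) = c * D * r := by ring
    rw [this, hcD]
    ring
  have hmid : ∀ a, |a - a₀| ≤ Y → L j a w₀ ≤ Q - r / 4 := by
    intro a haY
    obtain ⟨k1, k2, k3, k4⟩ := rad a haY
    have h1 := hF.mid (a - w₀) (by linarith [hF.lt]) (by
      rw [← h8]
      exact mul_le_mul_of_nonneg_left (by linarith) (by linarith)) (by linarith)
    rwa [add_sub_cancel] at h1
  have hhi : ∀ a, |a - a₀| ≤ Y → Q + r ≤ L j a w₁ := by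
    intro a haY
    obtain ⟨k1, k2, k3, k4⟩ := rad a haY
    have h1 := hF.hi (a - w₁) (by linarith) (by linarith [hF.lt])
    rwa [add_sub_cancel] at h1
  have hYr : Y ≤ r / 16 := by
    rw [hY]
    have h1 : c / 2 * r * X ≤ c / 2 * r * 1 := mul_le_mul_of_nonneg_left hXone cr0.le
    nlinarith
  have hthin : ε' * r ≤ ε * Y := by
    have h1 : ε' * r ≤ ε * (c / 2 * δ) * r := mul_le_mul_of_nonneg_right hε'1 hr.le
    have h2 : c / 2 * r * δ ≤ Y := by
      rw [hY]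
      exact mul_le_mul_of_nonneg_left hX1 cr0.le
    have h3 := mul_le_mul_of_nonneg_left h2 hε.le
    nlinarith
  refine ⟨a₀, Y, s', G, ?_, ?_⟩
  · rw [hY]
    have := mul_le_mul_of_nonneg_left hX1 cr0.le
    linarith
  refine
    { pos := hF.pos
      lt := hF.lt
      left := (rad (a₀ - Y) (by rw [sub_sub_cancel_left, abs_neg, abs_of_pos hY0])).1
      right := (rad (a₀ + Y) (by rw [add_sub_cancel_left, abs_of_pos hY0])).2.2.1
      right1 := (rad (a₀ + Y) (by rw [add_sub_cancel_left, abs_of_pos hY0])).2.2.2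
      thin := hF.thin.trans hthin
      near₀ := by linarith [hF.near₀]
      near₁ := by linarith [hF.near₁]
      s0 := s'0
      s1 := s'1
      aff := fun i a haY => (s'2 i a haY).trans (by linarith)
      fall := fun i hi a haY => ?_
      stay := fun i hi a haY => (hstay i hi a haY).trans (by
        have : 0 < ε * Y := by positivity
        linarith)
      mem := ?_
      lo := fun a haY => ?_
      mid := hmid
      hi := hhi }
  · obtain ⟨x, hx1, hx2, hx3⟩ := par a haY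
    rw [hG] at hi
    have h1 := hi x hx1
    rw [hv] at h1
    have h2 := h1.trans (min_le_right _ _)
    rw [le_div_iff₀ hr, hx2] at h2
    refine le_trans ?_ h2
    rw [hY]
    have : 0 < C * c * X * r := by positivity
    nlinarith
  · by_contra hcon
    have h0 : |a₀ - a₀| ≤ Y := by rw [sub_self, abs_zero]; exact hY0.le
    have h1 := hstay j hcon a₀ h0
    have h2 := hmid a₀ h0
    have h3 := hhi a₀ h0
    have h4 : ε / 2 * Y < 5 / 4 * r := by
      -- the bound `ε₁ X < 1` again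
      have h5 : v j p ≤ ε₁ * X := by
        rcases hvv j with h | h
        · exact absurd (by rw [hG]; exact h) hcon
        · exact h p (by rw [sub_self, abs_zero]; exact hX0.le)
      exfalso
      rw [hv] at h5
      have h6 : ε₁ * X < 1 := by nlinarith
      rcases min_le_iff.1 h5 with h | h
      · linarith
      · rw [hAp, div_le_iff₀ hr] at h
        nlinarith
    linarith
  · obtain ⟨k1, k2, k3, k4⟩ := rad a haY
    have h1 := hF.lo (a - w₀) (by linarith [hF.lt]) (by linarith)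
    rwa [add_sub_cancel] at h1

/-- **(F) in the form of cells**, for the threshold `L j` among the thresholds `L i`. -/
def FrnC {ι : Type*} (L : ι → ℝ → ℝ → ℝ) (j : ι) (ρ : ℝ → ℝ) (D : ℝ) : Prop :=
  ∀ h : ℝ, 0 < h → ∃ ε C : ℝ, 0 < ε ∧ 0 < C ∧ ∀ δ : ℝ, 0 < δ → ∀ᵐ Q : ℝ, 0 < Q → Q < 1 →
    0 < Lv (L j) (Q, 0) → ¬ Atm (L j) Q → DifferentiableAt ℝ ρ Q → deriv ρ Q < 1 - h →
    ∀ r₁ : ℝ, 0 < r₁ → ∃ r : ℝ, 0 < r ∧ r < r₁ ∧ ∀ (w₀ w₁ a₀ Y : ℝ) (s : ι → ℝ) (G : Set ι),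
      δ * r ≤ Y → ¬ FCell L j D ε C Q r w₀ w₁ a₀ Y s G

/-- **(F) from cells.** -/
theorem frnN_of_cell {ι : Type*} [Finite ι] {L : ι → ℝ → ℝ → ℝ} {j : ι} {ρ : ℝ → ℝ} {D : ℝ}
    (hD : 1 ≤ D) (hL : ∀ i, Law (L i)) (hl : ∀ i, LipR (L i) D) (h : FrnC L j ρ D) :
    FrnN (L j) ρ D := by
  intro η hη
  obtain ⟨ε, C, hε, hC, h1⟩ := h η hη
  obtain ⟨δ, ε', hδ, hε', h2⟩ := frn_cell (ι := ι) hD hε hC
  refine ⟨ε', hε', ?_⟩
  filter_upwards [h1 δ hδ] with Q hQ a b c d e f r₁ hr₁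
  obtain ⟨r, hr, hr', h3⟩ := hQ a b c d e f r₁ hr₁
  refine ⟨r, hr, hr', fun w₀ w₁ hF => ?_⟩
  obtain ⟨a₀, Y, s, G, k1, k2⟩ := h2 L j hL hl Q r w₀ w₁ hr hF
  exact h3 w₀ w₁ a₀ Y s G k1 k2

/-- **(J) from cells in fronts.** -/
theorem jmpN_of_cell {ι : Type*} [Finite ι] {L : ι → ℝ → ℝ → ℝ} {j : ι} {ρ : ℝ → ℝ} {D : ℝ}
    (hD : 1 ≤ D) (hL : ∀ i, Law (L i)) (hl : ∀ i, LipR (L i) D)
    (h0 : ∀ w, 0 < w → w ≤ 1 → 0 ≤ L j w w) (hJ : JmpA (L j) ρ) (h : FrnC L j ρ D) :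
    JmpN (L j) ρ :=
  jmpN_of_front (hL j) h0 (hl j) hJ (frnN_of_cell hD hL hl h)

end Pool.STR
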