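import Pool.Agent.H39.GEN.Blow

/-!
# Steep fronts

At a row `Q` where the derivative of the diagonal threshold level `Lv P (Q, 0)` vanishes the
threshold rises by more than `r` between two windows `w₀ < w₁` with `w₁ - w₀ ≤ ε r`. If the
threshold is a Lipschitz function of the radius at each window, then the two windows can be chosen
so that for *all* radii `w₀ + q`, `0 ≤ q ≤ c r`, the threshold is in the box of radius `2 r`
around `Q` and below `Q - r / 4` at the window `w₀`, and above `Q + r` at the window `w₁`: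
`exists_front`. So (J) for the rows where the derivative vanishes follows from (J) for the rows in
the jumps of the diagonal threshold and from a local input at fronts, which is needed for
arbitrarily small `r` only, not for all small `r`: `jmpN_of_front`.
-/

set_option autoImplicit false

namespace Pool.STR

open MeasureTheory Set Filter Topology Pool.LEV

/-- The threshold is a Lipschitz function of the radius, at macroscopic windows. -/
def LipR (P : ℝ → ℝ → ℝ) (D : ℝ) : Prop :=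
  ∀ a a' w, 0 < w → w ≤ a → a ≤ a' → a' ≤ 1 → P a' w ≤ P a w + D * (a' - a)

/-- **Front** of the row `Q` at the scale `r`, between the windows `w₀` and `w₁`. -/
structure Frn (P : ℝ → ℝ → ℝ) (D ε Q r w₀ w₁ : ℝ) : Prop where
  pos : 0 < w₀
  lt : w₀ < w₁
  le1 : w₁ + r ≤ 1
  thin : w₁ - w₀ ≤ ε * r
  near₀ : Lv P (Q, 0) - ε * r ≤ w₀
  near₁ : w₁ ≤ Lv P (Q, 0) + ε * r
  lo : ∀ q, 0 ≤ q → q ≤ r → Q - 2 * r ≤ P (w₀ + q) w₀
  mid : ∀ q, 0 ≤ q → D * q ≤ r / 8 → q ≤ r → P (w₀ + q) w₀ ≤ Q - r / 4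
  hi : ∀ q, 0 ≤ q → q ≤ r → Q + r ≤ P (w₁ + q) w₁

/-- The rows in the jumps of the diagonal threshold. -/
def Atm (P : ℝ → ℝ → ℝ) (Q : ℝ) : Prop := ∃ η : ℝ, 0 < η ∧ Lv P (Q + η, 0) ≤ Lv P (Q - η, 0)

/-- **(J), macroscopic.** Rows in the jumps of the diagonal threshold are full. -/
def JmpA (P : ℝ → ℝ → ℝ) (ρ : ℝ → ℝ) : Prop :=
  ∀ h : ℝ, 0 < h → ∀ᵐ Q : ℝ, 0 < Q → Q < 1 → 0 < Lv P (Q, 0) → Atm P Q →
    DifferentiableAt ℝ ρ Q → 1 - h ≤ deriv ρ Q

/-- **(F).** At almost every row which is not full and not in a jump, there is no front for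
arbitrarily small `r`. -/
def FrnN (P : ℝ → ℝ → ℝ) (ρ : ℝ → ℝ) (D : ℝ) : Prop :=
  ∀ h : ℝ, 0 < h → ∃ ε : ℝ, 0 < ε ∧ ∀ᵐ Q : ℝ, 0 < Q → Q < 1 → 0 < Lv P (Q, 0) → ¬ Atm P Q →
    DifferentiableAt ℝ ρ Q → deriv ρ Q < 1 - h →
    ∀ r₁ : ℝ, 0 < r₁ → ∃ r : ℝ, 0 < r ∧ r < r₁ ∧ ∀ w₀ w₁, ¬ Frn P D ε Q r w₀ w₁

/-- The diagonal level is below the row. -/
theorem Lv_diag_le {P : ℝ → ℝ → ℝ} (hP : Law P) (h0 : ∀ w, 0 < w → w ≤ 1 → 0 ≤ P w w) {Q : ℝ}
    (hQ : 0 < Q) (hQ1 : Q < 1) : Lv P (Q, 0) ≤ Q := by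
  rw [Lv_eq le_rfl zero_le_one hQ.le hQ1.le]
  refine le_of_forall_gt fun a ha => ?_
  by_cases ha1 : 1 ≤ a
  · refine lt_of_le_of_ne ((lev_le_one zero_le_one).trans ha1) ?_
    intro hc
    -- the level is one: then every radius between `Q` and `1` is below the level
    obtain ⟨b, hb⟩ : ∃ b, b = (Q + 1) / 2 := ⟨_, rfl⟩
    have hb0 : Q < b := by rw [hb]; linarith
    have hb1 : b < 1 := by rw [hb]; linarith
    have h1 : lev P Q 0 ≤ b := by
      refine lev_le ⟨by linarith, hb1.le, Or.inl ?_⟩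
      rw [sub_zero]
      have h2 := hP.slope (b - Q) (b - Q) Q (by linarith) le_rfl hQ.le (by linarith)
      have h3 := h0 (b - Q) (by linarith) (by linarith)
      have h4 := hP.mono_w b (b - Q) b (by linarith) (by linarith) le_rfl hb1.le
      have h5 : Q ≤ min 1 (P (b - Q) (b - Q) + Q) := le_min hQ1.le (by linarith)
      rw [sub_add_cancel] at h2
      linarith
    linarith
  · push Not at ha1
    obtain ⟨b, hb⟩ : ∃ b, b = (Q + a) / 2 := ⟨_, rfl⟩
    have hb0 : Q < b := by rw [hb]; linarith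
    have hb1 : b < a := by rw [hb]; linarith
    refine lt_of_le_of_lt (lev_le ⟨by linarith, by linarith, Or.inl ?_⟩) hb1
    rw [sub_zero]
    have h2 := hP.slope (b - Q) (b - Q) Q (by linarith) le_rfl hQ.le (by linarith)
    have h3 := h0 (b - Q) (by linarith) (by linarith)
    have h4 := hP.mono_w b (b - Q) b (by linarith) (by linarith) le_rfl (by linarith)
    have h5 : Q ≤ min 1 (P (b - Q) (b - Q) + Q) := le_min hQ1.le (by linarith)
    rw [sub_add_cancel] at h2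
    linarith

/-- **Fronts exist** at rows where the derivative of the diagonal level vanishes. -/
theorem exists_front {P : ℝ → ℝ → ℝ} (hP : Law P) (h0 : ∀ w, 0 < w → w ≤ 1 → 0 ≤ P w w)
    {D : ℝ} (hD : LipR P D) {ε Q : ℝ} (hε : 0 < ε) (hQ : 0 < Q) (hQ1 : Q < 1)
    (hg0 : 0 < Lv P (Q, 0)) (hd : DifferentiableAt ℝ (fun Q => Lv P (Q, 0)) Q)
    (hd0 : deriv (fun Q => Lv P (Q, 0)) Q = 0)
    (hA : ∃ r₁ : ℝ, 0 < r₁ ∧ ∀ r : ℝ, 0 < r → r < r₁ → ∃ Q' : ℝ, Q - r ≤ Q' ∧ Q' ≤ Q - r / 2 ∧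
      ¬ Atm P Q') :
    ∃ r₁ : ℝ, 0 < r₁ ∧ ∀ r : ℝ, 0 < r → r < r₁ → ∃ w₀ w₁, Frn P D ε Q r w₀ w₁ := by
  obtain ⟨g, hg⟩ : ∃ g : ℝ → ℝ, g = fun Q => Lv P (Q, 0) := ⟨_, rfl⟩
  have hgm : Monotone g := by
    rw [hg]
    exact fun x y hxy => Lv_mono hP ⟨hxy, le_rfl⟩
  have hgQ : g Q ≤ Q := by
    rw [hg]
    exact Lv_diag_le hP h0 hQ hQ1
  have hgp : 0 < g Q := by
    rw [hg]
    exact hg0
  -- the derivative
  have h1 : HasDerivAt g 0 Q := by
    have h1' := hd.hasDerivAt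
    rw [hd0] at h1'
    rw [hg]
    exact h1'
  obtain ⟨e, he⟩ : ∃ e, e = ε / 8 := ⟨_, rfl⟩
  have he0 : 0 < e := by rw [he]; positivity
  have h2 : ∃ d : ℝ, 0 < d ∧ ∀ x : ℝ, |x| < d → |g (Q + x) - g Q| ≤ e * |x| := by
    have h3 := h1.isLittleO.def he0
    obtain ⟨d, hd, h4⟩ := Metric.eventually_nhds_iff.1 h3
    refine ⟨d, hd, fun x hx => ?_⟩
    have h5 := h4 (y := Q + x) (by rw [Real.dist_eq, add_sub_cancel_left]; exact hx)
    simpa using h5
  obtain ⟨d, hd1, h2⟩ := h2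
  obtain ⟨r₀, hr₀, hA⟩ := hA
  obtain ⟨r₁, hr₁⟩ : ∃ r₁, r₁ = min r₀ (min (d / 4) (min (Q / 4) (min ((1 - Q) / 4)
    (min (g Q / (8 * (1 + e))) ((1 - Q) / (8 * (1 + e))))))) := ⟨_, rfl⟩
  have e1 : 0 < g Q / (8 * (1 + e)) := by positivity
  have e2 : 0 < (1 - Q) / (8 * (1 + e)) := div_pos (by linarith) (by positivity)
  refine ⟨r₁, ?_, fun r hr hr' => ?_⟩
  · rw [hr₁]
    refine lt_min hr₀ (lt_min (by linarith) (lt_min (by linarith) (lt_min (by linarith)
      (lt_min e1 e2))))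
  have k1 : r < r₀ := by rw [hr₁] at hr'; exact lt_of_lt_of_le hr' (min_le_left _ _)
  have k2 : r < d / 4 := by
    rw [hr₁] at hr'
    exact lt_of_lt_of_le hr' ((min_le_right _ _).trans (min_le_left _ _))
  have k3 : r < Q / 4 := by
    rw [hr₁] at hr'
    exact lt_of_lt_of_le hr' ((min_le_right _ _).trans ((min_le_right _ _).trans
      (min_le_left _ _)))
  have k4 : r < (1 - Q) / 4 := by
    rw [hr₁] at hr'
    exact lt_of_lt_of_le hr' ((min_le_right _ _).trans ((min_le_right _ _).trans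
      ((min_le_right _ _).trans (min_le_left _ _))))
  have k5 : r < g Q / (8 * (1 + e)) := by
    rw [hr₁] at hr'
    exact lt_of_lt_of_le hr' ((min_le_right _ _).trans ((min_le_right _ _).trans
      ((min_le_right _ _).trans ((min_le_right _ _).trans (min_le_left _ _)))))
  have k6 : r < (1 - Q) / (8 * (1 + e)) := by
    rw [hr₁] at hr'
    exact lt_of_lt_of_le hr' ((min_le_right _ _).trans ((min_le_right _ _).trans
      ((min_le_right _ _).trans ((min_le_right _ _).trans (min_le_right _ _)))))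
  rw [lt_div_iff₀ (by positivity)] at k5 k6
  have er : 0 < e * r := by positivity
  obtain ⟨Q', q1, q2, q3⟩ := hA r hr k1
  obtain ⟨η, hη⟩ : ∃ η, η = r / 8 := ⟨_, rfl⟩
  have hη0 : 0 < η := by rw [hη]; positivity
  have q4 : g (Q' - η) < g (Q' + η) := by
    by_contra hc
    push Not at hc
    rw [hg] at hc
    exact q3 ⟨η, hη0, hc⟩
  -- the values of the diagonal level
  have g1 : g Q - e * (2 * r) ≤ g (Q' - η) := by
    have a1 := h2 (Q' - η - Q) (by rw [abs_lt]; constructor <;> linarith)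
    have a2 : |Q' - η - Q| ≤ 2 * r := by rw [abs_le]; constructor <;> linarith
    have a3 := (abs_le.1 a1).1
    have a4 := mul_le_mul_of_nonneg_left a2 he0.le
    rw [add_sub_cancel] at a3
    linarith
  have g2 : g (Q + r) ≤ g Q + e * r := by
    have a1 := h2 r (by rw [abs_of_pos hr]; linarith)
    rw [abs_of_pos hr] at a1
    have a3 := (abs_le.1 a1).2
    linarith
  have g3 : g (Q' + η) ≤ g (Q + r) := hgm (by linarith)
  obtain ⟨w₀, hw₀⟩ : ∃ w, w = (g (Q' - η) + g (Q' + η)) / 2 := ⟨_, rfl⟩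
  obtain ⟨w₁, hw₁⟩ : ∃ w, w = g (Q + r) + e * r := ⟨_, rfl⟩
  have w1 : g (Q' - η) < w₀ := by rw [hw₀]; linarith
  have w2 : w₀ < g (Q' + η) := by rw [hw₀]; linarith
  have w3 : 0 < w₀ := by nlinarith
  have w4 : w₀ < w₁ := by rw [hw₁]; linarith
  have w5 : w₁ + r ≤ 1 := by
    rw [hw₁]
    nlinarith
  -- the thresholds
  have p1 : Q' - η ≤ P w₀ w₀ := by
    have a1 : lev P (Q' - η) 0 < w₀ := by
      rw [← Lv_eq (P := P) le_rfl zero_le_one (by linarith) (by linarith)]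
      rw [hg] at w1
      exact w1
    have a2 := le_of_lev_lt hP le_rfl zero_le_one a1 (by linarith)
    rwa [sub_zero] at a2
  have p2 : P w₀ w₀ < Q' + η := by
    have a1 : w₀ < lev P (Q' + η) 0 := by
      rw [← Lv_eq (P := P) le_rfl zero_le_one (by linarith) (by linarith)]
      rw [hg] at w2
      exact w2
    have a2 := lt_of_lt_lev (P := P) zero_le_one w3.le a1
    rwa [sub_zero] at a2
  have p3 : Q + r ≤ P w₁ w₁ := by
    have a1 : lev P (Q + r) 0 < w₁ := by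
      rw [← Lv_eq (P := P) le_rfl zero_le_one (by linarith) (by linarith)]
      rw [hw₁, hg]
      show Lv P (Q + r, 0) < Lv P (Q + r, 0) + e * r
      linarith
    have a2 := le_of_lev_lt hP le_rfl zero_le_one a1 (by linarith)
    rwa [sub_zero] at a2
  have hεe : ε * r = 8 * (e * r) := by rw [he]; ring
  refine ⟨w₀, w₁, w3, w4, w5, ?_, ?_, ?_, fun q hq hqr => ?_, fun q hq hq1 hqr => ?_,
    fun q hq hqr => ?_⟩
  · rw [hεe, hw₁]
    linarith
  · rw [hεe]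
    have : g Q = Lv P (Q, 0) := by rw [hg]
    linarith
  · rw [hεe, hw₁]
    have : g Q = Lv P (Q, 0) := by rw [hg]
    linarith
  · have a1 := hP.mono_a w₀ (w₀ + q) w₀ w3.le le_rfl (by linarith) (by linarith)
    linarith
  · have a1 := hD w₀ (w₀ + q) w₀ w3 le_rfl (by linarith) (by linarith)
    rw [add_sub_cancel_left] at a1
    linarith
  · have a1 := hP.mono_a w₁ (w₁ + q) w₁ (by linarith) le_rfl (by linarith) (by linarith)
    linarith

/-- At almost every point of a set there are points of the set in `[Q - r, Q - r / 2]` for all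
small `r`. -/
theorem density (S : Set ℝ) : ∀ᵐ Q : ℝ, Q ∈ S → ∃ r₁ : ℝ, 0 < r₁ ∧ ∀ r : ℝ, 0 < r → r < r₁ →
    ∃ Q' : ℝ, Q - r ≤ Q' ∧ Q' ≤ Q - r / 2 ∧ Q' ∈ S := by
  have h1 := IsUnifLocDoublingMeasure.ae_tendsto_measure_inter_div (volume : Measure ℝ) S 3
  filter_upwards [ae_imp_of_ae_restrict h1] with Q hQ hQS
  have h2 := hQ hQS (l := 𝓝[>] (0 : ℝ)) (fun r => Q - 3 * r) (fun r => r) tendsto_id (by
    filter_upwards [self_mem_nhdsWithin] with r hr
    rw [Metric.mem_closedBall, Real.dist_eq, sub_sub_cancel, abs_of_pos (by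
      have : (0 : ℝ) < r := hr
      positivity)])
  have h3 : ∀ᶠ r in 𝓝[>] (0 : ℝ), (0 : ENNReal) < volume (S ∩ Metric.closedBall (Q - 3 * r) r) /
      volume (Metric.closedBall (Q - 3 * r) r) := (tendsto_order.1 h2).1 _ (by simp)
  rw [eventually_nhdsWithin_iff, Metric.eventually_nhds_iff] at h3
  obtain ⟨d, hd, h3⟩ := h3
  refine ⟨4 * d, by positivity, fun r hr hr' => ?_⟩
  have h4 := h3 (y := r / 4) (by
    rw [Real.dist_eq, sub_zero, abs_of_pos (by positivity)]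
    linarith) (by
    show (0 : ℝ) < r / 4
    positivity)
  have h5 : (S ∩ Metric.closedBall (Q - 3 * (r / 4)) (r / 4)).Nonempty := by
    by_contra hc
    rw [Set.not_nonempty_iff_eq_empty] at hc
    rw [hc, measure_empty, ENNReal.zero_div] at h4
    exact lt_irrefl _ h4
  obtain ⟨Q', hQ', hQ''⟩ := h5
  rw [Metric.mem_closedBall, Real.dist_eq, abs_le] at hQ''
  exact ⟨Q', by linarith, by linarith, hQ'⟩

/-- **(J) from fronts.** -/
theorem jmpN_of_front {P : ℝ → ℝ → ℝ} (hP : Law P) (h0 : ∀ w, 0 < w → w ≤ 1 → 0 ≤ P w w)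
    {ρ : ℝ → ℝ} {D : ℝ} (hD : LipR P D) (hJ : JmpA P ρ) (hF : FrnN P ρ D) : JmpN P ρ := by
  intro h hh
  obtain ⟨ε, hε, hF⟩ := hF h hh
  obtain ⟨S, hS⟩ : ∃ S : Set ℝ, S = {Q | 0 < Q ∧ Q < 1 ∧ 0 < Lv P (Q, 0) ∧
    DifferentiableAt ℝ ρ Q ∧ deriv ρ Q < 1 - h ∧ ¬ Atm P Q} := ⟨_, rfl⟩
  filter_upwards [hF, hJ h hh, density S] with Q k1 k2 k3 hQ hQ1 hg hd hd0 hρ
  by_contra hcon
  push Not at hcon
  have hA : ¬ Atm P Q := fun hc => absurd (k2 hQ hQ1 hg hc hρ) (not_le.2 hcon)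
  obtain ⟨r₁, hr₁, h1⟩ := k3 (by rw [hS]; exact ⟨hQ, hQ1, hg, hρ, hcon, hA⟩)
  obtain ⟨r₂, hr₂, h2⟩ := exists_front hP h0 hD hε hQ hQ1 hg hd hd0
    ⟨r₁, hr₁, fun r hr hr' => by
      obtain ⟨Q', a, b, c⟩ := h1 r hr hr'
      rw [hS] at c
      exact ⟨Q', a, b, c.2.2.2.2.2⟩⟩
  obtain ⟨r, hr, hr', h3⟩ := k1 hQ hQ1 hg hA hρ hcon r₂ hr₂
  obtain ⟨w₀, w₁, h4⟩ := h2 r hr hr'
  exact h3 w₀ w₁ h4

end Pool.STR
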